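import Pool.Agent.H30.GMC.StT

/-!
# MP_ea1590_ag, module XCLG: the class group is generated by `D`
-/

open AlgebraicGeometry CategoryTheory FCB MvPolynomial

namespace GMC

namespace XCLG

variable {X : Scheme.{0}} [IsIntegral X] [IsLocallyNoetherian X]

theorem ord_one (x : X) : Scheme.ord (1 : X.functionField) x = 0 := by
  have h := Scheme.ord_mul (X := X) (x := x) (f := 1) (g := 1) one_ne_zero one_ne_zero
  rw [mul_one] at h
  omega

theorem ord_inv (x : X) (f : X.functionField) (hf : f ≠ 0) :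
    Scheme.ord f⁻¹ x = - Scheme.ord f x := by
  have h := Scheme.ord_mul (X := X) (x := x) (f := f) (g := f⁻¹) hf (inv_ne_zero hf)
  rw [mul_inv_cancel₀ hf, ord_one] at h
  omega

/-- the divisors which are linearly equivalent to a multiple of `D` -/
def cls (D : PrimeDiv X) : AddSubgroup (WeilDiv X) where
  carrier := {E | ∃ k : ℤ, LinEquiv E (k • Finsupp.single D 1)}
  zero_mem' := ⟨0, 1, one_ne_zero, fun p => by rw [ord_one]; simp⟩
  add_mem' := by
    rintro E E' ⟨k, f, hf, h⟩ ⟨k', f', hf', h'⟩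
    refine ⟨k + k', f * f', mul_ne_zero hf hf', fun p => ?_⟩
    rw [Scheme.ord_mul hf hf', add_smul, Finsupp.add_apply, Finsupp.add_apply, h p, h' p]
    ring
  neg_mem' := by
    rintro E ⟨k, f, hf, h⟩
    refine ⟨-k, f⁻¹, inv_ne_zero hf, fun p => ?_⟩
    rw [ord_inv _ _ hf, neg_smul, Finsupp.neg_apply, Finsupp.neg_apply, h p]
    ring

theorem mem_cls (D : PrimeDiv X) (h : ∀ p : PrimeDiv X, Finsupp.single p 1 ∈ cls D)
    (E : WeilDiv X) : E ∈ cls D := by
  induction E using Finsupp.induction_linear with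
  | zero => exact (cls D).zero_mem
  | add E E' h1 h2 => exact (cls D).add_mem h1 h2
  | single p n =>
    have h1 : (Finsupp.single p n : WeilDiv X) = n • Finsupp.single p 1 := by
      rw [Finsupp.smul_single, smul_eq_mul, mul_one]
    rw [h1]
    exact (cls D).zsmul_mem (h p) n

end XCLG

theorem xclg_thm (h1 : S_XPRI) (h3 : S_XSPE) (h4 : S_XORF) (h5 : S_XIEX) : S_XCLG := by
  intro M D hD E
  obtain ⟨⟨ξ, hξ⟩, hξ2⟩ := h5 M
  let _ : Algebra ℂ M.X.functionField := (ffHom M.str).toAlgebra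
  obtain ⟨-, hinj, -⟩ := hξ2 ξ hξ
  refine XCLG.mem_cls D (fun p => ?_) E
  by_cases hp : p = D
  · subst hp
    exact ⟨1, 1, one_ne_zero, fun q => by rw [XCLG.ord_one, one_smul, add_zero]⟩
  have hq0 : ∀ q : PrimeDiv M.X, q ≠ D → Qc (ch 0) ∉ M.P q.1 :=
    fun q hq h => hq (hD.2.2.2.2 q h)
  obtain ⟨P, hPp, hPr, hPh⟩ := h1 M ξ hξ 0 p.1 (hq0 p hp)
  rw [p.2] at hPh
  obtain ⟨F, hF⟩ := (UniqueFactorizationMonoid.isPrincipal_of_height_eq_one hPh).principal
  have hF' : P = Ideal.span {F} := hF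
  have hF0 : F ≠ 0 := by
    rintro rfl
    have h := Ideal.ne_bot_of_height_eq_one hPh
    rw [hF'] at h
    exact h (by simp)
  have hf0 : (aeval (xi ξ 0) F : M.X.functionField) ≠ 0 := fun h => hF0 (hinj 0 F h)
  have hord : ∀ q : PrimeDiv M.X, q ≠ D → q ≠ p →
      Scheme.ord (aeval (xi ξ 0) F : M.X.functionField) q.1 = 0 := by
    intro q hq hqp
    obtain ⟨P', hPp', hPr', hPh'⟩ := h1 M ξ hξ 0 q.1 (hq0 q hq)
    rw [q.2] at hPh'
    refine (h4 M ξ hξ 0 q F (hq0 q hq)).2 P' hPr' fun hmem => hqp ?_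
    have hle : P ≤ P' := by
      rw [hF', Ideal.span_singleton_le_iff_mem]
      exact hmem
    have hfin : P.FiniteHeight := by simp [P.finiteHeight_iff, hPh]
    have heq : P = P' := Ideal.eq_of_le_of_height_le _ hle (by rw [hPh, hPh'])
    subst heq
    have s1 : p.1 ⤳ q.1 := (h3 M ξ hξ 0 p.1 q.1 P P (hq0 p hp) (hq0 q hq) hPr hPr').2 le_rfl
    have s2 : q.1 ⤳ p.1 := (h3 M ξ hξ 0 q.1 p.1 P P (hq0 q hq) (hq0 p hp) hPr' hPr).2 le_rfl
    exact Subtype.ext (s2.antisymm s1).eq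
  have hordp : Scheme.ord (aeval (xi ξ 0) F : M.X.functionField) p.1 = 1 :=
    (h4 M ξ hξ 0 p F (hq0 p hp)).1 (hF' ▸ hPr)
  refine ⟨-Scheme.ord (aeval (xi ξ 0) F : M.X.functionField) D.1,
    (aeval (xi ξ 0) F : M.X.functionField)⁻¹, inv_ne_zero hf0, fun q => ?_⟩
  rw [XCLG.ord_inv _ _ hf0, Finsupp.smul_apply, smul_eq_mul]
  by_cases hq : q = D
  · subst hq
    rw [Finsupp.single_eq_same, Finsupp.single_eq_of_ne (Ne.symm hp)]
    ring
  · rw [Finsupp.single_eq_of_ne hq]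
    by_cases hqp : q = p
    · subst hqp
      rw [Finsupp.single_eq_same, hordp]
      ring
    · rw [Finsupp.single_eq_of_ne hqp, hord q hq hqp]
      ring

end GMC
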