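import Pool.Agent.H30.GMC.StT

/-!
# MP_ea1590_ag, module XEX: the variety exists
-/

open AlgebraicGeometry CategoryTheory FCB MvPolynomial

namespace GMC

theorem xex_thm (h1 : S_PSB) (h2 : S_EXV) (h3 : S_XIDL) : S_XEX := by
  obtain ⟨hp, hh, hi, -, -⟩ := h3
  obtain ⟨-, -, -, h4, -, -⟩ := h1 9
  obtain ⟨x, hx⟩ := h4 IX hp hh hi
  obtain ⟨X, emb, hint, himm, hgen⟩ := h2 9 x
  have hn : IsLocallyNoetherian X := noeth_of_lft (emb ≫ PSstr 9)
  exact ⟨{ X := X, emb := emb, int := hint, imm := himm, noeth := hn, gen := by rw [hgen, hx] }⟩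

end GMC
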